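import Pool.Agent.Helper6.GR.Higher
import Pool.Agent.Helper75.GR.Third
import Pool.Agent.Helper76.GR.GradEst
import Pool.Agent.Helper35.GR.HessEst2

/-!
# MP_114a94_gt, package P10: the combined interior estimate
-/

set_option autoImplicit false

open scoped ContDiff Topology NNReal
open Set Filter MeasureTheory

namespace Pool.Agent.GR

open Pool.Agent.Helper25.GrimReaper

variable {n : ℕ}

/-- Time shift of a solution on `[0,T']`. -/
lemma P10_shift {T' τ : ℝ} (hτ : 0 ≤ τ) {u : ℝ → E n → ℝ} (hu : IsSolOn (Icc 0 T') univ u) :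
    IsSolOn (Icc 0 (T' - τ)) univ (fun t => u (t + τ)) :=
  IsSolOn.shift hτ (hu.mono (Icc_subset_Icc_left hτ) subset_rfl)

lemma P10_Dw_sq_le_Sk (w : List (Fin n)) (f : E n → ℝ) (x : E n) :
    (Dw w f x) ^ 2 ≤ Sk w.length f x := by
  unfold Sk
  have h := Finset.single_le_sum (f := fun v : Fin w.length → Fin n =>
    (Dw (List.ofFn v) f x) ^ 2) (fun v _ => sq_nonneg _) (Finset.mem_univ w.get)
  simpa using h

lemma P10_abs_le {a C : ℝ} (h : a ^ 2 ≤ C) : |a| ≤ 1 + |C| := by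
  have h1 := le_abs_self C
  have h2 := abs_nonneg C
  have h3 : |a| ^ 2 ≤ |C| := by rw [sq_abs]; linarith
  by_contra h4
  push Not at h4
  nlinarith

/-- Pointwise interior estimate for all orders `1 ≤ |w| ≤ k`. -/
theorem P10_claim (n k : ℕ) (M T : ℝ) : ∀ {R : ℝ}, 0 < R → ∀ {τ : ℝ}, 0 < τ → ∃ C : ℝ,
    ∀ T' ≤ T, ∀ (u : ℝ → E n → ℝ) (x₀ : E n), IsSolOn (Icc 0 T') univ u →
      (∀ t ∈ Icc 0 T', ∀ x ∈ Metric.closedBall x₀ R, |u t x| ≤ M) →
      (∀ x ∈ Metric.closedBall x₀ R, gradSq (u 0) x ≤ M) →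
      ∀ t ∈ Icc τ T', ∀ w : List (Fin n), 1 ≤ w.length → w.length ≤ k →
        |Dw w (u t) x₀| ≤ C := by
  induction k with
  | zero =>
    intro R _ τ _
    exact ⟨0, fun T' _ u x₀ _ _ _ t _ w h1 h2 => absurd h1 (by omega)⟩
  | succ k ih =>
    intro R hR τ hτ
    have hR2 : 0 < R / 2 := by linarith
    have hτ2 : 0 < τ / 2 := by linarith
    obtain ⟨C₀, hC₀⟩ := ih hR2 hτ2
    -- it suffices to bound the words of length `k+1`
    suffices h : ∃ C₁ : ℝ, ∀ T' ≤ T, ∀ (u : ℝ → E n → ℝ) (x₀ : E n), IsSolOn (Icc 0 T') univ u →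
        (∀ t ∈ Icc 0 T', ∀ x ∈ Metric.closedBall x₀ R, |u t x| ≤ M) →
        (∀ x ∈ Metric.closedBall x₀ R, gradSq (u 0) x ≤ M) →
        ∀ t ∈ Icc τ T', ∀ w : List (Fin n), w.length = k + 1 → |Dw w (u t) x₀| ≤ C₁ by
      obtain ⟨C₁, hC₁⟩ := h
      refine ⟨max C₀ C₁, fun T' hT' u x₀ hu h1 h2 t ht w hw1 hw2 => ?_⟩
      rcases hw2.lt_or_eq with h | h
      · have hsub : Metric.closedBall x₀ (R / 2) ⊆ Metric.closedBall x₀ R :=
          Metric.closedBall_subset_closedBall (by linarith)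
        exact (hC₀ T' hT' u x₀ hu (fun t ht x hx => h1 t ht x (hsub hx))
          (fun x hx => h2 x (hsub hx)) t ⟨by linarith [ht.1], ht.2⟩ w hw1 (by omega)).trans
            (le_max_left _ _)
      · exact (hC₁ T' hT' u x₀ hu h1 h2 t ht w h).trans (le_max_right _ _)
    -- bounds on `[τ/2,T'] × closedBall x₀ (R/2)`
    have hball : ∀ T' ≤ T, ∀ (u : ℝ → E n → ℝ) (x₀ : E n), IsSolOn (Icc 0 T') univ u →
        (∀ t ∈ Icc 0 T', ∀ x ∈ Metric.closedBall x₀ R, |u t x| ≤ M) →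
        (∀ x ∈ Metric.closedBall x₀ R, gradSq (u 0) x ≤ M) →
        ∀ t ∈ Icc (τ / 2) T', ∀ x ∈ Metric.closedBall x₀ (R / 2), ∀ w : List (Fin n),
          1 ≤ w.length → w.length ≤ k → |Dw w (u t) x| ≤ C₀ := by
      intro T' hT' u x₀ hu h1 h2 t ht x hx w hw1 hw2
      have hsub : Metric.closedBall x (R / 2) ⊆ Metric.closedBall x₀ R := by
        refine Metric.closedBall_subset_closedBall' ?_
        have := Metric.mem_closedBall.1 hx
        linarith
      exact hC₀ T' hT' u x hu (fun t ht x hx => h1 t ht x (hsub hx))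
        (fun x hx => h2 x (hsub hx)) t ht w hw1 hw2
    rcases Nat.lt_or_ge k 1 with hk | hk
    · -- k = 0 : gradient
      have hk0 : k = 0 := by omega
      subst hk0
      obtain ⟨C, hC⟩ := grad_est n hR M M
      refine ⟨1 + |C|, fun T' hT' u x₀ hu h1 h2 t ht w hw => ?_⟩
      have h3 := hC T' u x₀ hu h1 h2 t ⟨by linarith [ht.1], ht.2⟩
      obtain ⟨i, rfl⟩ : ∃ i, w = [i] := List.length_eq_one_iff.1 hw
      refine P10_abs_le (le_trans ?_ h3)
      exact Finset.single_le_sum (f := fun i => (pd i (u t) x₀) ^ 2) (fun v _ => sq_nonneg _)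
        (Finset.mem_univ i)
    rcases Nat.lt_or_ge k 2 with hk' | hk'
    · -- k = 1 : second derivatives
      have hk1 : k = 1 := by omega
      subst hk1
      obtain ⟨C, hC⟩ := hess_est n hR2 (n * C₀ ^ 2) T
      refine ⟨|C| / (τ / 2), fun T' hT' u x₀ hu h1 h2 t ht w hw => ?_⟩
      have hb := hball T' hT' u x₀ hu h1 h2
      have h3 := hC (T' - τ / 2) (by linarith) (fun t => u (t + τ / 2)) x₀
        (P10_shift hτ2.le hu) (fun s hs x hx => by
          have h4 : ∀ i : Fin n, (pd i (u (s + τ / 2)) x) ^ 2 ≤ C₀ ^ 2 := by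
            intro i
            have h5 := hb (s + τ / 2) ⟨by linarith [hs.1], by linarith [hs.2]⟩ x hx [i]
              (by simp) (by simp)
            exact sq_le_sq.2 (h5.trans (le_abs_self C₀))
          unfold gradSq
          refine (Finset.sum_le_sum fun i _ => h4 i).trans (le_of_eq ?_)
          simp) (t - τ / 2) ⟨by linarith [ht.1], by linarith [ht.2]⟩
      obtain ⟨i, j, rfl⟩ : ∃ i j, w = [i, j] := List.length_eq_two.1 hw
      have h4 := h3 i j
      simp only [sub_add_cancel] at h4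
      rw [le_div_iff₀ hτ2]
      have h5 : |Dw [i, j] (u t) x₀| * (τ / 2) ≤ (t - τ / 2) * |pd i (pd j (u t)) x₀| := by
        rw [mul_comm]
        exact mul_le_mul_of_nonneg_right (by linarith [ht.1]) (abs_nonneg _)
      exact h5.trans (h4.trans (le_abs_self C))
    · -- third and higher derivatives
      obtain ⟨C, hC⟩ : ∃ C : ℝ,
          ∀ T' ≤ T, ∀ (u : ℝ → E n → ℝ) (x₀ : E n), IsSolOn (Icc 0 T') univ u →
          (∀ t ∈ Icc 0 T', ∀ x ∈ Metric.closedBall x₀ (R / 2), ∀ w : List (Fin n),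
            1 ≤ w.length → w.length ≤ k → |Dw w (u t) x| ≤ C₀) →
          ∀ t ∈ Icc 0 T', t * Sk (k + 1) (u t) x₀ ≤ C := by
        rcases Nat.lt_or_ge k 3 with hk3 | hk3
        · have : k = 2 := by omega
          subst this
          exact third_est n hR2 C₀ T
        · obtain ⟨C, hC⟩ := higher_est n (k + 1) (by omega) hR2 C₀ T
          exact ⟨C, fun T' hT' u x₀ hu h => hC T' hT' u x₀ hu
            (fun t ht x hx w hw1 hw2 => h t ht x hx w hw1 (by omega))⟩
      refine ⟨1 + |(|C| / (τ / 2))|, fun T' hT' u x₀ hu h1 h2 t ht w hw => ?_⟩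
      have hb := hball T' hT' u x₀ hu h1 h2
      have h3 := hC (T' - τ / 2) (by linarith) (fun t => u (t + τ / 2)) x₀
        (P10_shift hτ2.le hu) (fun s hs x hx w hw1 hw2 =>
          hb (s + τ / 2) ⟨by linarith [hs.1], by linarith [hs.2]⟩ x hx w hw1 hw2)
        (t - τ / 2) ⟨by linarith [ht.1], by linarith [ht.2]⟩
      simp only [sub_add_cancel] at h3
      refine P10_abs_le ?_
      have h4 := P10_Dw_sq_le_Sk w (u t) x₀
      rw [hw] at h4
      rw [le_div_iff₀ hτ2]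
      have h5 : (Dw w (u t) x₀) ^ 2 * (τ / 2) ≤ (t - τ / 2) * Sk (k + 1) (u t) x₀ := by
        rw [mul_comm]
        exact mul_le_mul (by linarith [ht.1]) h4 (sq_nonneg _) (by linarith [ht.1])
      exact h5.trans (h3.trans (le_abs_self C))

theorem interior_est {n : ℕ} {R : ℝ} (hR : 0 < R) (M T : ℝ) {τ : ℝ} (hτ : 0 < τ)
    (w : List (Fin n)) : ∃ C : ℝ,
    ∀ T' ≤ T, ∀ (u : ℝ → E n → ℝ) (x₀ : E n), IsSolOn (Icc 0 T') univ u →
      (∀ t ∈ Icc 0 T', ∀ x ∈ Metric.closedBall x₀ R, |u t x| ≤ M) →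
      (∀ x ∈ Metric.closedBall x₀ R, gradSq (u 0) x ≤ M) →
      ∀ t ∈ Icc τ T', |Dw w (u t) x₀| ≤ C := by
  rcases Nat.eq_zero_or_pos w.length with h0 | h0
  · rw [List.length_eq_zero_iff] at h0
    subst h0
    exact ⟨M, fun T' _ u x₀ _ h1 _ t ht => h1 t ⟨by linarith [ht.1], ht.2⟩ x₀
      (Metric.mem_closedBall_self hR.le)⟩
  · obtain ⟨C, hC⟩ := P10_claim n w.length M T hR hτ
    exact ⟨C, fun T' hT' u x₀ hu h1 h2 t ht => hC T' hT' u x₀ hu h1 h2 t ht w h0 le_rfl⟩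

end Pool.Agent.GR
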