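import Pool.Agent.Helper35.GR.LCalc
import Pool.Agent.Helper35.GR.Defs2
import Pool.Agent.Helper13.GR.P4a
import Pool.Agent.Helper41.GR.DPBounds

/-!
# MP_114a94_gt, package P9b: interior estimates for derivatives of order `k ≥ 4`
-/

set_option autoImplicit false

open scoped ContDiff Topology NNReal
open Set Filter MeasureTheory

namespace Pool.Agent.GR

open Pool.Agent.Helper25.GrimReaper

variable {n : ℕ}

/-! ### Algebra of the quantities `Sk`, `Nab` -/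

/-- `∑_{|w|=k} |D_w f|`. -/
noncomputable def P9b_N (k : ℕ) (f : E n → ℝ) (x : E n) : ℝ :=
  ∑ v : Fin k → Fin n, |Dw (List.ofFn v) f x|

lemma P9b_N_nonneg (k : ℕ) (f : E n → ℝ) (x : E n) : 0 ≤ P9b_N k f x :=
  Finset.sum_nonneg fun _ _ => abs_nonneg _

lemma Sk_nonneg (k : ℕ) (f : E n → ℝ) (x : E n) : 0 ≤ Sk k f x :=
  Finset.sum_nonneg fun _ _ => sq_nonneg _

lemma P9b_N_sq_le (k : ℕ) (f : E n → ℝ) (x : E n) :
    (P9b_N k f x) ^ 2 ≤ (n : ℝ) ^ k * Sk k f x := by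
  have h := sq_sum_le_card_mul_sum_sq (s := (Finset.univ : Finset (Fin k → Fin n)))
    (f := fun v => |Dw (List.ofFn v) f x|)
  simpa [P9b_N, Sk, sq_abs] using h

lemma Nab_self (k : ℕ) (f : E n → ℝ) (x : E n) : Nab k k (jet f x) = P9b_N k f x := by
  simp [Nab, P9b_N, jet]

lemma Nab_succ (k : ℕ) (f : E n → ℝ) (x : E n) :
    Nab k (k + 1) (jet f x) = P9b_N k f x + P9b_N (k + 1) f x := by
  have : Finset.Icc k (k + 1) = {k, k + 1} := by
    ext a; simp only [Finset.mem_Icc, Finset.mem_insert, Finset.mem_singleton]; omega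
  simp [Nab, P9b_N, jet, this]

/-- `∑_{|w|=k} |∇ D_w f|² = S_{k+1}`. -/
lemma sum_norm_gradient_sq (k : ℕ) (f : E n → ℝ) (x : E n) :
    ∑ v : Fin k → Fin n, ‖gradient (Dw (List.ofFn v) f) x‖ ^ 2 = Sk (k + 1) f x := by
  simp only [norm_gradient_sq, gradSq]
  unfold Sk
  rw [← (Fin.consEquiv (fun _ : Fin (k + 1) => Fin n)).sum_comp, Fintype.sum_prod_type,
    Finset.sum_comm]
  refine Finset.sum_congr rfl fun i _ => Finset.sum_congr rfl fun v _ => ?_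
  congr 1
  have : List.ofFn ((Fin.consEquiv (fun _ : Fin (k + 1) => Fin n)) (i, v)) = i :: List.ofFn v := by
    simp [Fin.consEquiv, List.ofFn_succ]
  rw [this]
  rfl

/-- The remainder of the equation of `D_w u`. -/
noncomputable def P9b_R (w : List (Fin n)) (f : E n → ℝ) (x : E n) : ℝ :=
  Dw w (Fop f) x - ∑ i, ∑ j, gco f x i j * Dw (i :: j :: w) f x

lemma P9b_R_bound (n m l : ℕ) (hl : m + 1 < 2 * (l + 1)) (M : ℝ) : ∃ C : ℝ, 0 ≤ C ∧
    ∀ (v : Fin m → Fin n) (f : E n → ℝ), ContDiff ℝ ∞ f → ∀ x : E n,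
      (∀ w : List (Fin n), 1 ≤ w.length → w.length ≤ l + 1 → |Dw w f x| ≤ M) →
      |P9b_R (List.ofFn v) f x| ≤ C * (1 + Nab (l + 2) (m + 1) (jet f x)) := by
  have h : ∀ v : Fin m → Fin n, ∃ C : ℝ, 0 ≤ C ∧ ∀ (f : E n → ℝ), ContDiff ℝ ∞ f → ∀ x : E n,
      (∀ w : List (Fin n), 1 ≤ w.length → w.length ≤ l + 1 → |Dw w f x| ≤ M) →
      |P9b_R (List.ofFn v) f x| ≤ C * (1 + Nab (l + 2) (m + 1) (jet f x)) := by
    intro v
    obtain ⟨R, hR1, hR2⟩ := Dw_Fop_structure (List.ofFn v)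
    simp only [List.length_ofFn] at hR1
    obtain ⟨C, hC0, hC⟩ := DP_bound hR1 l hl M
    refine ⟨C, hC0, fun f hf x hx => ?_⟩
    have h1 := hR2 univ isOpen_univ f hf.contDiffOn x (mem_univ x)
    have h2 : P9b_R (List.ofFn v) f x = R (jet f x) := by
      unfold P9b_R; rw [h1]; ring
    rw [h2]
    exact hC (jet f x) hx
  choose C hC0 hC using h
  refine ⟨∑ v, C v, Finset.sum_nonneg fun v _ => hC0 v, fun v f hf x hx => ?_⟩
  refine (hC v f hf x hx).trans ?_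
  refine mul_le_mul_of_nonneg_right
    (Finset.single_le_sum (f := C) (fun v _ => hC0 v) (Finset.mem_univ v)) ?_
  have : 0 ≤ Nab (l + 2) (m + 1) (jet f x) :=
    Finset.sum_nonneg fun _ _ => Finset.sum_nonneg fun _ _ => abs_nonneg _
  linarith

/-! ### Jets of `Sk` and of the cutoff -/

section
variable {p : E n} {I : Set ℝ} {t : ℝ} {x : E n} {f : ℝ → E n → ℝ} {d : E n} {l : ℝ}

lemma LJet.sq (h : LJet p I t x f d l) :
    LJet p I t x (fun s y => f s y ^ 2) ((2 * f t x) • d) (2 * f t x * l - 2 * gip p d d) := by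
  have h1 := h.mul h
  have h2 : (fun s y => f s y * f s y) = (fun s y => f s y ^ 2) := by
    funext s y; ring
  rw [h2] at h1
  refine h1.congr ?_ (by ring)
  rw [← add_smul]; congr 1; ring

/-- The cutoff `η = t (R² - |x-x₀|²)²`. -/
lemma P9b_cutoff {T' : ℝ} (x₀ : E n) {R : ℝ} (hR : 0 < R) (ht : t ∈ Icc 0 T')
    (hx : ‖x - x₀‖ ≤ R) : ∃ (dη : E n) (lη : ℝ),
    LJet p (Icc 0 T') t x (fun s y => s * (R ^ 2 - ‖y - x₀‖ ^ 2) ^ 2) dη lη ∧
    ‖dη‖ ^ 2 ≤ 16 * t * R ^ 2 * (t * (R ^ 2 - ‖x - x₀‖ ^ 2) ^ 2) ∧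
    lη ≤ R ^ 4 + 4 * n * t * R ^ 2 := by
  have h1 := ((LJet.const (p := p) (I := Icc 0 T') (t := t) (x := x) (R ^ 2)).sub
    (LJet.sqdist (p := p) (I := Icc 0 T') (t := t) (x := x) x₀)).sq
  have h2 := (LJet.time (p := p) (x := x) (hasDerivWithinAt_id t (Icc 0 T'))).mul h1
  refine ⟨_, _, h2, ?_, ?_⟩
  · simp only [zero_sub, smul_zero, add_zero, smul_neg, norm_neg, norm_smul, id]
    rw [Real.norm_of_nonneg ht.1, Real.norm_eq_abs, Real.norm_eq_abs, mul_pow, mul_pow, mul_pow,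
      sq_abs, sq_abs]
    have h3 : ‖x - x₀‖ ^ 2 ≤ R ^ 2 := by
      have := norm_nonneg (x - x₀); nlinarith
    have h4 : 0 ≤ t ^ 2 * (R ^ 2 - ‖x - x₀‖ ^ 2) ^ 2 := by positivity
    nlinarith
  · simp only [gip_zero_left, zero_sub, id]
    have h3 : ‖x - x₀‖ ^ 2 ≤ R ^ 2 := by
      have := norm_nonneg (x - x₀); nlinarith
    have h4 := gip_self_nonneg p (-((2 : ℝ) • (x - x₀)))
    have h5 : 0 ≤ (1 + ‖p‖ ^ 2)⁻¹ * ‖p‖ ^ 2 := by positivity
    have h6 : 0 ≤ ‖x - x₀‖ ^ 2 := sq_nonneg _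
    set ρ := R ^ 2 - ‖x - x₀‖ ^ 2 with hρ
    have h7 : 0 ≤ ρ := by linarith
    have h8 : ρ ≤ R ^ 2 := by linarith
    have h9 : 0 ≤ t * gip p (-((2 : ℝ) • (x - x₀))) (-((2 : ℝ) • (x - x₀))) :=
      mul_nonneg ht.1 h4
    have h10 : t * ρ * n ≤ t * R ^ 2 * n := by
      have := ht.1
      gcongr
    have h11 : 0 ≤ t * ρ * ((1 + ‖p‖ ^ 2)⁻¹ * ‖p‖ ^ 2) := by
      have := ht.1
      positivity
    have h12 : ρ ^ 2 ≤ R ^ 4 := by nlinarith
    nlinarith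
end

/-- Jet of `Sk k`. -/
lemma LJet_Sk {I : Set ℝ} {u : ℝ → E n → ℝ} {t : ℝ} {x : E n}
    (hu : IsSolOn I univ u) (ht : t ∈ I) (k : ℕ) :
    LJet (gradient (u t) x) I t x (fun s y => Sk k (u s) y)
      (∑ v : Fin k → Fin n,
        (2 * Dw (List.ofFn v) (u t) x) • gradient (Dw (List.ofFn v) (u t)) x)
      (∑ v : Fin k → Fin n, (2 * Dw (List.ofFn v) (u t) x * P9b_R (List.ofFn v) (u t) x
        - 2 * gip (gradient (u t) x) (gradient (Dw (List.ofFn v) (u t)) x)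
          (gradient (Dw (List.ofFn v) (u t)) x))) := by
  unfold Sk
  refine LJet.sum _ _ _ _ fun v _ => ?_
  exact (LJet_Dw hu ht (List.ofFn v)).sq

/-- Norm of the gradient of `Sk k`. -/
lemma P9b_norm_grad_Sk (k : ℕ) (f : E n → ℝ) (x : E n) :
    ‖∑ v : Fin k → Fin n, (2 * Dw (List.ofFn v) f x) • gradient (Dw (List.ofFn v) f) x‖ ^ 2
      ≤ 4 * Sk k f x * Sk (k + 1) f x := by
  have h1 : ‖∑ v : Fin k → Fin n, (2 * Dw (List.ofFn v) f x) • gradient (Dw (List.ofFn v) f) x‖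
      ≤ ∑ v : Fin k → Fin n, (2 * |Dw (List.ofFn v) f x|) * ‖gradient (Dw (List.ofFn v) f) x‖ := by
    refine (norm_sum_le _ _).trans (le_of_eq ?_)
    refine Finset.sum_congr rfl fun v _ => ?_
    rw [norm_smul, Real.norm_eq_abs, abs_mul, abs_two]
  have h2 := Finset.sum_mul_sq_le_sq_mul_sq (Finset.univ : Finset (Fin k → Fin n))
    (fun v => 2 * |Dw (List.ofFn v) f x|) (fun v => ‖gradient (Dw (List.ofFn v) f) x‖)
  have h3 : ∑ v : Fin k → Fin n, (2 * |Dw (List.ofFn v) f x|) ^ 2 = 4 * Sk k f x := by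
    unfold Sk
    rw [Finset.mul_sum]
    refine Finset.sum_congr rfl fun v _ => ?_
    rw [mul_pow, sq_abs]; ring
  rw [sum_norm_gradient_sq, h3] at h2
  refine le_trans ?_ h2
  exact pow_le_pow_left₀ (norm_nonneg _) h1 2

/-- upper bound for `L S_k`. -/
lemma P9b_L_le (k : ℕ) (f : E n → ℝ) (x : E n) {C N lam : ℝ}
    (hlam : lam ≤ (1 + ‖gradient f x‖ ^ 2)⁻¹)
    (hR : ∀ v : Fin k → Fin n, |P9b_R (List.ofFn v) f x| ≤ C * (1 + N)) :
    ∑ v : Fin k → Fin n, (2 * Dw (List.ofFn v) f x * P9b_R (List.ofFn v) f x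
        - 2 * gip (gradient f x) (gradient (Dw (List.ofFn v) f) x)
          (gradient (Dw (List.ofFn v) f) x)) ≤
      2 * P9b_N k f x * (C * (1 + N)) - 2 * lam * Sk (k + 1) f x := by
  rw [← sum_norm_gradient_sq, P9b_N, Finset.mul_sum, Finset.mul_sum, Finset.sum_mul,
    ← Finset.sum_sub_distrib]
  refine Finset.sum_le_sum fun v _ => ?_
  have h1 := le_gip_self (gradient f x) (gradient (Dw (List.ofFn v) f) x)
  have h2 : lam * ‖gradient (Dw (List.ofFn v) f) x‖ ^ 2 ≤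
      (1 + ‖gradient f x‖ ^ 2)⁻¹ * ‖gradient (Dw (List.ofFn v) f) x‖ ^ 2 :=
    mul_le_mul_of_nonneg_right hlam (sq_nonneg _)
  have h3 : Dw (List.ofFn v) f x * P9b_R (List.ofFn v) f x ≤
      |Dw (List.ofFn v) f x| * (C * (1 + N)) := by
    refine (le_abs_self _).trans ?_
    rw [abs_mul]
    exact mul_le_mul_of_nonneg_left (hR v) (abs_nonneg _)
  linarith

/-- Continuity of `Sk`. -/
lemma P9b_cont_Sk {T' : ℝ} {u : ℝ → E n → ℝ} (hu : IsSolOn (Icc 0 T') univ u) (k : ℕ) :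
    ContinuousOn (fun q : ℝ × E n => Sk k (u q.1) q.2) (Icc 0 T' ×ˢ univ) := by
  unfold Sk
  exact continuousOn_finsetSum _ fun v _ => (hu.cont (List.ofFn v)).pow 2

/-! ### Real inequalities -/

lemma P9b_real1 {C c lam Nk Nk' S S' : ℝ} (hC0 : 0 ≤ C) (hc0 : 0 < c) (hlam0 : 0 < lam)
    (hS0 : 0 ≤ S) (hNS : Nk ^ 2 ≤ c * S) (hNS' : Nk' ^ 2 ≤ c * S') :
    2 * Nk * (C * (1 + (Nk + Nk'))) - 2 * lam * S' ≤
      -lam * S' + (C + 3 * C * c + C ^ 2 * c ^ 2 / lam) * (1 + S) := by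
  have h3 : 2 * Nk * Nk' * C ≤ lam * S' + C ^ 2 * c ^ 2 / lam * S := by
    have h4 : 2 * Nk * Nk' * C ≤ lam / c * Nk' ^ 2 + C ^ 2 * c / lam * Nk ^ 2 := by
      have h6 : lam / c * Nk' ^ 2 + C ^ 2 * c / lam * Nk ^ 2 - 2 * Nk * Nk' * C =
          (lam * Nk' - C * c * Nk) ^ 2 / (lam * c) := by
        field_simp
        ring
      have h7 : 0 ≤ (lam * Nk' - C * c * Nk) ^ 2 / (lam * c) := by positivity
      linarith
    have h5 : lam / c * Nk' ^ 2 ≤ lam * S' := by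
      have : lam / c * Nk' ^ 2 ≤ lam / c * (c * S') :=
        mul_le_mul_of_nonneg_left hNS' (by positivity)
      have h6 : lam / c * (c * S') = lam * S' := by field_simp
      linarith
    have h6 : C ^ 2 * c / lam * Nk ^ 2 ≤ C ^ 2 * c ^ 2 / lam * S := by
      have : C ^ 2 * c / lam * Nk ^ 2 ≤ C ^ 2 * c / lam * (c * S) :=
        mul_le_mul_of_nonneg_left hNS (by positivity)
      have h7 : C ^ 2 * c / lam * (c * S) = C ^ 2 * c ^ 2 / lam * S := by ring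
      linarith
    linarith
  have h8 : 2 * Nk * C ≤ C + C * (c * S) := by
    have h9 : 2 * Nk ≤ 1 + Nk ^ 2 := by nlinarith [sq_nonneg (Nk - 1)]
    have h10 : C * (2 * Nk) ≤ C * (1 + c * S) :=
      mul_le_mul_of_nonneg_left (by linarith) hC0
    linarith
  have h10 : 2 * Nk ^ 2 * C ≤ 2 * C * c * S := by
    have h10 : C * (2 * Nk ^ 2) ≤ C * (2 * (c * S)) :=
      mul_le_mul_of_nonneg_left (by linarith) hC0
    linarith
  have h11 : 2 * Nk * (C * (1 + (Nk + Nk'))) =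
      2 * Nk * C + 2 * Nk ^ 2 * C + 2 * Nk * Nk' * C := by ring
  have h12 : 0 ≤ C * c := by positivity
  have h13 : 0 ≤ C ^ 2 * c ^ 2 / lam := by positivity
  have h14 : 0 ≤ C * S := by positivity
  have h15 : (C + 3 * C * c + C ^ 2 * c ^ 2 / lam) * (1 + S) =
    C + 3 * (C * c) + C ^ 2 * c ^ 2 / lam + C * S + 3 * C * c * S
      + C ^ 2 * c ^ 2 / lam * S := by ring
  rw [h11, h15]
  linarith

lemma P9b_real2 {C c lam N1 B1 Nk S : ℝ} (hC0 : 0 ≤ C) (hc0 : 0 < c) (hlam0 : 0 < lam)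
    (hN0 : 0 ≤ Nk) (hN1B : N1 ≤ B1) (hNS : Nk ^ 2 ≤ c * S) :
    2 * N1 * (C * (1 + Nk)) - 2 * lam * S ≤
      -lam * S + (2 * B1 * C + B1 ^ 2 * C ^ 2 * c / lam) := by
  have h3 : 2 * N1 * (C * (1 + Nk)) ≤ 2 * B1 * (C * (1 + Nk)) := by gcongr
  have h4 : 2 * B1 * C * Nk ≤ lam / c * Nk ^ 2 + B1 ^ 2 * C ^ 2 * c / lam := by
    have h6 : lam / c * Nk ^ 2 + B1 ^ 2 * C ^ 2 * c / lam - 2 * B1 * C * Nk =
        (lam * Nk - B1 * C * c) ^ 2 / (lam * c) := by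
      field_simp
      ring
    have h7 : 0 ≤ (lam * Nk - B1 * C * c) ^ 2 / (lam * c) := by positivity
    linarith
  have h5 : lam / c * Nk ^ 2 ≤ lam * S := by
    have : lam / c * Nk ^ 2 ≤ lam / c * (c * S) :=
      mul_le_mul_of_nonneg_left hNS (by positivity)
    have h6 : lam / c * (c * S) = lam * S := by field_simp
    linarith
  have h6 : 2 * B1 * (C * (1 + Nk)) = 2 * B1 * C + 2 * B1 * C * Nk := by ring
  linarith

lemma P9b_real3 {T₁ R η S S' lam a b g : ℝ} (hT : 0 ≤ T₁) (hη0 : 0 ≤ η) (hS0 : 0 ≤ S)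
    (hS'0 : 0 ≤ S') (hlam0 : 0 < lam) (hg : |g| ≤ a * b) (h3 : b ^ 2 ≤ 4 * S * S')
    (h4 : a ^ 2 ≤ 16 * T₁ * R ^ 2 * η) :
    -2 * g ≤ lam * η * S' + 64 * T₁ * R ^ 2 / lam * S := by
  have h2 : -2 * g ≤ 2 * (a * b) := by
    have := neg_abs_le g; linarith
  have h5 : (a * b) ^ 2 ≤ (16 * T₁ * R ^ 2 * η) * (4 * S * S') := by
    rw [mul_pow]
    exact mul_le_mul h4 h3 (sq_nonneg _) (by positivity)
  have h6 : 0 ≤ lam * η * S' + 64 * T₁ * R ^ 2 / lam * S := by positivity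
  have h7 : (2 * (a * b)) ^ 2 ≤ (lam * η * S' + 64 * T₁ * R ^ 2 / lam * S) ^ 2 := by
    have h8 : 4 * ((lam * η * S') * (64 * T₁ * R ^ 2 / lam * S)) ≤
        (lam * η * S' + 64 * T₁ * R ^ 2 / lam * S) ^ 2 := by
      nlinarith [sq_nonneg (lam * η * S' - 64 * T₁ * R ^ 2 / lam * S)]
    have h9 : (lam * η * S') * (64 * T₁ * R ^ 2 / lam * S) = 64 * T₁ * R ^ 2 * η * S * S' := by
      field_simp
    rw [h9] at h8
    have h10 : (2 * (a * b)) ^ 2 = 4 * (a * b) ^ 2 := by ring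
    rw [h10]
    have h11 : 16 * T₁ * R ^ 2 * η * (4 * S * S') = 64 * T₁ * R ^ 2 * η * S * S' := by ring
    rw [h11] at h5
    linarith
  have h10 := sq_le_sq.1 h7
  linarith [le_abs_self (2 * (a * b)), abs_of_nonneg h6]

lemma P9b_real4 {η Lk S S' lη cr A Lk1 lam C1 C2 C3 C4 C5 TR : ℝ}
    (h1 : 0 ≤ η * Lk + S * lη - 2 * cr + A * Lk1) (hη0 : 0 ≤ η) (hS0 : 0 ≤ S)
    (hA0 : 0 ≤ A) (hlam : A * lam = C5 + 1) (hC10 : 0 ≤ C1)
    (hLk : Lk ≤ -lam * S' + C1 * (1 + S)) (hLk1 : Lk1 ≤ -lam * S + C2) (hlη : lη ≤ C3)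
    (hcr : -2 * cr ≤ lam * η * S' + C4 * S) (hη1 : η ≤ TR) (hC3 : 0 ≤ C3) (hC4 : 0 ≤ C4)
    (hC5 : C5 = C1 * TR + C3 + C4) : S ≤ C5 + A * C2 := by
  have h2 : η * Lk ≤ η * (-lam * S' + C1 * (1 + S)) := mul_le_mul_of_nonneg_left hLk hη0
  have h3 : S * lη ≤ S * C3 := mul_le_mul_of_nonneg_left hlη hS0
  have h4 : A * Lk1 ≤ A * (-lam * S + C2) := mul_le_mul_of_nonneg_left hLk1 hA0
  have h5 : η * (C1 * (1 + S)) ≤ TR * (C1 * (1 + S)) :=
    mul_le_mul_of_nonneg_right hη1 (by positivity)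
  have h7 : A * (-lam * S + C2) = -(C5 + 1) * S + A * C2 := by
    rw [← hlam]; ring
  have h8 : TR * (C1 * (1 + S)) = C1 * TR + C1 * TR * S := by ring
  have h9 : η * (-lam * S' + C1 * (1 + S)) = -(lam * η * S') + η * (C1 * (1 + S)) := by ring
  have h10 : -(C5 + 1) * S = -(C1 * TR * S) - C3 * S - C4 * S - S := by rw [hC5]; ring
  have h11 : C1 * TR ≤ C5 := by rw [hC5]; linarith
  linarith

theorem higher_est (n k : ℕ) (hk : 4 ≤ k) {R : ℝ} (hR : 0 < R) (M T : ℝ) : ∃ C : ℝ,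
    ∀ T' ≤ T, ∀ (u : ℝ → E n → ℝ) (x₀ : E n), IsSolOn (Icc 0 T') univ u →
      (∀ t ∈ Icc 0 T', ∀ x ∈ Metric.closedBall x₀ R, ∀ w : List (Fin n), 1 ≤ w.length →
        w.length < k → |Dw w (u t) x| ≤ M) →
      ∀ t ∈ Icc 0 T', t * Sk k (u t) x₀ ≤ C := by
  -- constants
  obtain ⟨Ca, hCa0, hCa⟩ := P9b_R_bound n k (k - 2) (by omega) M
  obtain ⟨Cb, hCb0, hCb⟩ := P9b_R_bound n (k - 1) (k - 2) (by omega) M
  have e1 : k - 2 + 2 = k := by omega
  have e2 : k - 1 + 1 = k := by omega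
  have e3 : k - 2 + 1 = k - 1 := by omega
  rw [e1, e3] at hCa hCb
  rw [e2] at hCb
  set C := max Ca Cb with hCdef
  have hC0 : 0 ≤ C := hCa0.trans (le_max_left _ _)
  set lam : ℝ := (1 + n * M ^ 2)⁻¹ with hlam
  have hlam0 : 0 < lam := by positivity
  set c : ℝ := (n : ℝ) ^ (k + 1) + (n : ℝ) ^ k + 1 with hc
  have hc0 : 0 < c := by positivity
  set B1 : ℝ := (n : ℝ) ^ (k - 1) * |M| with hB1
  have hB10 : 0 ≤ B1 := by positivity
  set C1 : ℝ := C + 3 * C * c + C ^ 2 * c ^ 2 / lam with hC1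
  have hC10 : 0 ≤ C1 := by positivity
  set C2 : ℝ := 2 * B1 * C + B1 ^ 2 * C ^ 2 * c / lam with hC2
  set T₁ : ℝ := |T| with hT₁
  have hT₁0 : 0 ≤ T₁ := abs_nonneg T
  set C3 : ℝ := R ^ 4 + 4 * n * T₁ * R ^ 2 with hC3
  set C4 : ℝ := 64 * T₁ * R ^ 2 / lam with hC4
  have hC30 : 0 ≤ C3 := by positivity
  have hC40 : 0 ≤ C4 := by positivity
  set C5 : ℝ := C1 * T₁ * R ^ 4 + C3 + C4 with hC5
  have hC50 : 0 ≤ C5 := by positivity
  set A : ℝ := (C5 + 1) / lam with hA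
  have hA0 : 0 ≤ A := by positivity
  have hC20 : 0 ≤ C2 := by positivity
  set C6 : ℝ := C5 + A * C2 with hC6
  have hC60 : 0 ≤ C6 := by positivity
  set C7 : ℝ := T₁ * R ^ 4 * C6 + A * ((n : ℝ) ^ (k - 1) * M ^ 2) with hC7
  have hC70 : 0 ≤ C7 := by positivity
  refine ⟨C7 / R ^ 4, fun T' hT' u x₀ hu hb t ht => ?_⟩
  have hTT : T' ≤ T₁ := hT'.trans (le_abs_self T)
  have hT'0 : 0 ≤ T' := ht.1.trans ht.2
  -- the function `Q`
  set Q : ℝ × E n → ℝ := fun q =>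
    q.1 * (R ^ 2 - ‖q.2 - x₀‖ ^ 2) ^ 2 * Sk k (u q.1) q.2 + A * Sk (k - 1) (u q.1) q.2 with hQ
  have hQc : ContinuousOn Q (Icc 0 T' ×ˢ Metric.closedBall x₀ R) := by
    have h1 := (P9b_cont_Sk hu k).mono (prod_mono_right (subset_univ (Metric.closedBall x₀ R)))
    have h2 := (P9b_cont_Sk hu (k - 1)).mono
      (prod_mono_right (subset_univ (Metric.closedBall x₀ R)))
    have h3 : Continuous (fun q : ℝ × E n => q.1 * (R ^ 2 - ‖q.2 - x₀‖ ^ 2) ^ 2) := by fun_prop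
    exact (h3.continuousOn.mul h1).add (continuousOn_const.mul h2)
  have hK : IsCompact (Icc 0 T' ×ˢ Metric.closedBall x₀ R) :=
    isCompact_Icc.prod (isCompact_closedBall x₀ R)
  have hmem : (t, x₀) ∈ Icc 0 T' ×ˢ Metric.closedBall x₀ R :=
    ⟨ht, Metric.mem_closedBall_self hR.le⟩
  obtain ⟨⟨t₁, x₁⟩, hq1, hmax⟩ := hK.exists_isMaxOn ⟨_, hmem⟩ hQc
  have ht₁ : t₁ ∈ Icc 0 T' := hq1.1
  have hx₁ : x₁ ∈ Metric.closedBall x₀ R := hq1.2
  -- bounds
  have hSk1 : ∀ s ∈ Icc 0 T', ∀ y ∈ Metric.closedBall x₀ R,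
      Sk (k - 1) (u s) y ≤ (n : ℝ) ^ (k - 1) * M ^ 2 := by
    intro s hs y hy
    have : ∀ v : Fin (k - 1) → Fin n, (Dw (List.ofFn v) (u s) y) ^ 2 ≤ M ^ 2 := by
      intro v
      have h1 := hb s hs y hy (List.ofFn v) (by simp; omega) (by simp; omega)
      exact sq_le_sq.2 (h1.trans (le_abs_self M))
    unfold Sk
    refine (Finset.sum_le_sum fun v _ => this v).trans (le_of_eq ?_)
    simp
  have hkey : Q (t₁, x₁) ≤ C7 := by
    have hρ : ‖x₁ - x₀‖ ≤ R := by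
      rw [← dist_eq_norm]; exact hx₁
    have hη0 : 0 ≤ t₁ * (R ^ 2 - ‖x₁ - x₀‖ ^ 2) ^ 2 := mul_nonneg ht₁.1 (sq_nonneg _)
    have h3 : ‖x₁ - x₀‖ ^ 2 ≤ R ^ 2 := by
      have := norm_nonneg (x₁ - x₀); nlinarith
    have hη1 : t₁ * (R ^ 2 - ‖x₁ - x₀‖ ^ 2) ^ 2 ≤ T₁ * R ^ 4 := by
      have h4 : (R ^ 2 - ‖x₁ - x₀‖ ^ 2) ^ 2 ≤ R ^ 4 := by
        have := sq_nonneg (‖x₁ - x₀‖); nlinarith
      have h5 : t₁ ≤ T₁ := ht₁.2.trans hTT
      exact mul_le_mul h5 h4 (sq_nonneg _) hT₁0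
    have hS1 := hSk1 t₁ ht₁ x₁ hx₁
    rcases hη0.eq_or_lt with h0 | hpos
    · simp only [hQ]
      rw [← h0, zero_mul, zero_add]
      have : 0 ≤ T₁ * R ^ 4 * C6 := by positivity
      have h5 := mul_le_mul_of_nonneg_left hS1 hA0
      linarith
    · -- interior maximum
      have ht0 : 0 < t₁ := by
        rcases ht₁.1.eq_or_lt with h | h
        · rw [← h, zero_mul] at hpos; exact absurd hpos (lt_irrefl 0)
        · exact h
      have hx2 : ‖x₁ - x₀‖ < R := by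
        rcases hρ.eq_or_lt with h | h
        · rw [h, sub_self] at hpos; simp at hpos
        · exact h
      set p := gradient (u t₁) x₁ with hp
      obtain ⟨dη, lη, hJη, hdη, hlη⟩ := P9b_cutoff (p := p) x₀ hR ht₁ hρ
      set η : ℝ := t₁ * (R ^ 2 - ‖x₁ - x₀‖ ^ 2) ^ 2 with hη
      have hJk := LJet_Sk hu ht₁ k (x := x₁)
      have hJk1 := LJet_Sk hu ht₁ (k - 1) (x := x₁)
      have hJQ := (hJη.mul hJk).add (hJk1.const_mul A)
      set Lk := (∑ v : Fin k → Fin n, (2 * Dw (List.ofFn v) (u t₁) x₁ *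
        P9b_R (List.ofFn v) (u t₁) x₁
        - 2 * gip (gradient (u t₁) x₁) (gradient (Dw (List.ofFn v) (u t₁)) x₁)
          (gradient (Dw (List.ofFn v) (u t₁)) x₁))) with hLk
      set Lk1 := (∑ v : Fin (k - 1) → Fin n, (2 * Dw (List.ofFn v) (u t₁) x₁ *
        P9b_R (List.ofFn v) (u t₁) x₁
        - 2 * gip (gradient (u t₁) x₁) (gradient (Dw (List.ofFn v) (u t₁)) x₁)
          (gradient (Dw (List.ofFn v) (u t₁)) x₁))) with hLk1
      set Gk := (∑ v : Fin k → Fin n,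
        (2 * Dw (List.ofFn v) (u t₁) x₁) • gradient (Dw (List.ofFn v) (u t₁)) x₁) with hGk
      have hloc : IsLocalMax ((fun s y => s * (R ^ 2 - ‖y - x₀‖ ^ 2) ^ 2 * Sk k (u s) y +
          A * Sk (k - 1) (u s) y) t₁) x₁ := by
        have h1 : Metric.closedBall x₀ R ∈ 𝓝 x₁ := by
          refine Filter.mem_of_superset (Metric.isOpen_ball.mem_nhds (x := x₁) (s := Metric.ball x₀ R) ?_)
            Metric.ball_subset_closedBall
          rw [Metric.mem_ball, dist_eq_norm]; exact hx2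
        filter_upwards [h1] with y hy
        exact hmax (⟨ht₁, hy⟩ : (t₁, y) ∈ Icc 0 T' ×ˢ Metric.closedBall x₀ R)
      have hmaxL := (hJQ.max ⟨ht0, ht₁.2⟩ hloc (fun s hs =>
        hmax (⟨⟨hs.1, hs.2.trans ht₁.2⟩, hx₁⟩ :
          (s, x₁) ∈ Icc 0 T' ×ˢ Metric.closedBall x₀ R))).2
      -- gradient bound
      have hgb : lam ≤ (1 + ‖gradient (u t₁) x₁‖ ^ 2)⁻¹ := by
        rw [norm_gradient_sq, hlam]
        refine inv_anti₀ (by have := gradSq_nonneg (u t₁) x₁; linarith) ?_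
        have : gradSq (u t₁) x₁ ≤ n * M ^ 2 := by
          unfold gradSq
          have h1 : ∀ i : Fin n, (pd i (u t₁) x₁) ^ 2 ≤ M ^ 2 := by
            intro i
            have h1 := hb t₁ ht₁ x₁ hx₁ [i] (by simp) (by simp; omega)
            exact sq_le_sq.2 (h1.trans (le_abs_self M))
          refine (Finset.sum_le_sum fun i _ => h1 i).trans (le_of_eq ?_)
          simp
        linarith
      have hfs := hu.contDiff ht₁
      have hb' : ∀ w : List (Fin n), 1 ≤ w.length → w.length ≤ k - 1 →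
          |Dw w (u t₁) x₁| ≤ M := fun w h1 h2 => hb t₁ ht₁ x₁ hx₁ w h1 (by omega)
      set S := Sk k (u t₁) x₁ with hS
      set S' := Sk (k + 1) (u t₁) x₁ with hS'
      set Nk := P9b_N k (u t₁) x₁ with hNk
      set Nk' := P9b_N (k + 1) (u t₁) x₁ with hNk'
      set N1 := P9b_N (k - 1) (u t₁) x₁ with hN1
      have hS0 : 0 ≤ S := Sk_nonneg _ _ _
      have hS'0 : 0 ≤ S' := Sk_nonneg _ _ _
      have hN0 : 0 ≤ Nk := P9b_N_nonneg _ _ _
      have hN'0 : 0 ≤ Nk' := P9b_N_nonneg _ _ _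
      have hN10 : 0 ≤ N1 := P9b_N_nonneg _ _ _
      have hNS : Nk ^ 2 ≤ c * S := by
        refine (P9b_N_sq_le k (u t₁) x₁).trans (mul_le_mul_of_nonneg_right ?_ hS0)
        have : (0 : ℝ) ≤ (n : ℝ) ^ (k + 1) := by positivity
        linarith
      have hNS' : Nk' ^ 2 ≤ c * S' := by
        refine (P9b_N_sq_le (k + 1) (u t₁) x₁).trans (mul_le_mul_of_nonneg_right ?_ hS'0)
        have : (0 : ℝ) ≤ (n : ℝ) ^ k := by positivity
        linarith
      have hN1B : N1 ≤ B1 := by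
        simp only [hN1, P9b_N, hB1]
        have : ∀ v : Fin (k - 1) → Fin n, |Dw (List.ofFn v) (u t₁) x₁| ≤ |M| := fun v =>
          (hb' _ (by simp; omega) (by simp)).trans (le_abs_self M)
        refine (Finset.sum_le_sum fun v _ => this v).trans (le_of_eq ?_)
        simp
      -- L S_k
      have hLk_le : Lk ≤ -lam * S' + C1 * (1 + S) := by
        have h1 : ∀ v : Fin k → Fin n, |P9b_R (List.ofFn v) (u t₁) x₁| ≤
            C * (1 + (Nk + Nk')) := by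
          intro v
          have h2 := hCa v (u t₁) hfs x₁ hb'
          rw [Nab_succ] at h2
          refine h2.trans (mul_le_mul_of_nonneg_right (le_max_left _ _) (by positivity))
        have h2 := P9b_L_le k (u t₁) x₁ hgb h1
        rw [← hLk] at h2
        exact h2.trans (P9b_real1 hC0 hc0 hlam0 hS0 hNS hNS')
      -- L S_{k-1}
      have hLk1_le : Lk1 ≤ -lam * S + C2 := by
        have h1 : ∀ v : Fin (k - 1) → Fin n, |P9b_R (List.ofFn v) (u t₁) x₁| ≤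
            C * (1 + Nk) := by
          intro v
          have h2 := hCb v (u t₁) hfs x₁ hb'
          rw [Nab_self] at h2
          refine h2.trans (mul_le_mul_of_nonneg_right (le_max_right _ _) (by positivity))
        have h2 := P9b_L_le (k - 1) (u t₁) x₁ hgb h1
        rw [← hLk1, e2] at h2
        exact h2.trans (P9b_real2 hC0 hc0 hlam0 hN0 hN1B hNS)
      -- gradient terms
      have hcross : -2 * gip p dη Gk ≤ lam * η * S' + C4 * S := by
        have h4 : ‖dη‖ ^ 2 ≤ 16 * T₁ * R ^ 2 * η := by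
          refine hdη.trans ?_
          have : t₁ ≤ T₁ := ht₁.2.trans hTT
          gcongr
        exact P9b_real3 hT₁0 hη0 hS0 hS'0 hlam0 (abs_gip_le p dη Gk)
          (P9b_norm_grad_Sk k (u t₁) x₁) h4
      -- final
      have hlη' : lη ≤ C3 := by
        refine hlη.trans ?_
        rw [hC3]
        have : t₁ ≤ T₁ := ht₁.2.trans hTT
        gcongr
      have hSle : S ≤ C6 := by
        refine P9b_real4 (η := η) (Lk := Lk) (lη := lη) (cr := gip p dη Gk) (A := A)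
          (Lk1 := Lk1) (lam := lam) (C1 := C1) (C2 := C2) (C3 := C3) (C4 := C4) (C5 := C5)
          (TR := T₁ * R ^ 4) (S' := S') hmaxL hη0 hS0 hA0 (by rw [hA]; field_simp) hC10 hLk_le
          hLk1_le hlη' hcross hη1 hC30 hC40 (by rw [hC5]; ring)
      simp only [hQ]
      have h5 := mul_le_mul_of_nonneg_left hS1 hA0
      have h6 : η * S ≤ T₁ * R ^ 4 * C6 := mul_le_mul hη1 hSle hS0 (by positivity)
      rw [hC7]
      linarith
  have h1 : Q (t, x₀) ≤ C7 := (hmax hmem).trans hkey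
  have h2 : Q (t, x₀) = t * R ^ 4 * Sk k (u t) x₀ + A * Sk (k - 1) (u t) x₀ := by
    simp only [hQ, sub_self, norm_zero]
    ring
  have h3 : 0 ≤ A * Sk (k - 1) (u t) x₀ := mul_nonneg hA0 (Sk_nonneg _ _ _)
  rw [le_div_iff₀ (by positivity)]
  nlinarith

end Pool.Agent.GR
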