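import Pool.Agent.Helper6.GR.Interior

/-!
# MP_114a94_gt, package P11: maximum principle and global existence on the torus
-/

set_option autoImplicit false

open scoped ContDiff Topology NNReal
open Set Filter MeasureTheory

namespace Pool.Agent.GR

open Pool.Agent.Helper25.GrimReaper

variable {n : ℕ}

/-- The closed period cell. -/
def P11_cell (n : ℕ) (P : ℝ) : Set (E n) := {x | ∀ i, x i ∈ Icc 0 P}

lemma P11_cell_compact (P : ℝ) : IsCompact (P11_cell n P) := by
  have h1 : IsCompact (Set.pi univ (fun _ : Fin n => Icc (0 : ℝ) P)) :=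
    isCompact_univ_pi fun _ => isCompact_Icc
  have h2 : IsCompact ((WithLp.toLp 2 : (Fin n → ℝ) → E n) ''
      (Set.pi univ (fun _ : Fin n => Icc (0 : ℝ) P))) :=
    h1.image (PiLp.continuous_toLp 2 _)
  refine h2.of_isClosed_subset ?_ ?_
  · have h3 : P11_cell n P = ⋂ i, {x : E n | x i ∈ Icc 0 P} := by
      ext x; simp [P11_cell]
    rw [h3]
    refine isClosed_iInter fun i => ?_
    exact isClosed_Icc.preimage (EuclideanSpace.proj (𝕜 := ℝ) i : E n →L[ℝ] ℝ).continuous
  · intro x hx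
    exact ⟨WithLp.ofLp x, fun i _ => hx i, rfl⟩

lemma P11_per_int {P : ℝ} {f : E n → ℝ} (h : Per P f) (i : Fin n) (k : ℤ) (x : E n) :
    f (x + ((k : ℝ) * P) • ee i) = f x := by
  induction k using Int.induction_on with
  | zero => simp
  | succ k ih =>
    have h1 := h i (x + (((k : ℤ) : ℝ) * P) • ee i)
    rw [ih] at h1
    rw [← h1]
    congr 1
    push_cast
    module
  | pred k ih =>
    have h1 := h i (x + (((-(k : ℤ) - 1 : ℤ) : ℝ) * P) • ee i)
    rw [← h1, ← ih]
    congr 1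
    push_cast
    module

/-- Reduction to the period cell. -/
lemma P11_reduce {P : ℝ} (hP : 0 < P) (x : E n) : ∃ y ∈ P11_cell n P,
    ∀ f : E n → ℝ, Per P f → f y = f x := by
  have key : ∀ s : Finset (Fin n), ∃ y : E n, (∀ i ∈ s, y i ∈ Icc 0 P) ∧
      ∀ f : E n → ℝ, Per P f → f y = f x := by
    intro s
    induction s using Finset.induction_on with
    | empty => exact ⟨x, by simp, fun _ _ => rfl⟩
    | insert j s hj ih =>
      obtain ⟨y, hy, hf⟩ := ih
      refine ⟨y + (((-⌊y j / P⌋ : ℤ) : ℝ) * P) • ee j, fun i hi => ?_, fun f h => ?_⟩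
      · rcases eq_or_ne i j with rfl | hij
        · have h1 : (y + (((-⌊y i / P⌋ : ℤ) : ℝ) * P) • ee i) i = Int.fract (y i / P) * P := by
            simp only [PiLp.add_apply, PiLp.smul_apply, PiLp.single_apply, if_true,
              smul_eq_mul, mul_one, Int.fract]
            push_cast
            field_simp
            ring
          rw [h1]
          have h2 := Int.fract_nonneg (y i / P)
          have h3 := Int.fract_lt_one (y i / P)
          constructor
          · positivity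
          · nlinarith
        · have h1 : (y + (((-⌊y j / P⌋ : ℤ) : ℝ) * P) • ee j) i = y i := by
            simp [hij]
          rw [h1]
          exact hy i ((Finset.mem_insert.1 hi).resolve_left hij)
      · rw [P11_per_int h]; exact hf f h
  obtain ⟨y, hy, hf⟩ := key Finset.univ
  exact ⟨y, fun i => hy i (Finset.mem_univ i), hf⟩

/-- Continuous periodic functions are bounded. -/
lemma P11_bdd {P : ℝ} (hP : 0 < P) {f : E n → ℝ} (hf : Continuous f) (hp : Per P f) :
    ∃ M, ∀ x, |f x| ≤ M := by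
  obtain ⟨M, hM⟩ := (P11_cell_compact (n := n) P).exists_bound_of_continuousOn hf.continuousOn
  refine ⟨M, fun x => ?_⟩
  obtain ⟨y, hy, h⟩ := P11_reduce hP x
  rw [← h f hp]
  exact hM y hy

/-- A uniform constant for all short words. -/
lemma P11_unif (N : ℕ) (Q : List (Fin n) → ℝ → Prop) (hQ : ∀ w a b, a ≤ b → Q w a → Q w b)
    (h : ∀ w, ∃ C, Q w C) : ∃ C, ∀ w, w.length ≤ N → Q w C := by
  choose C hC using h
  obtain ⟨K, hK⟩ := ((List.finite_length_le (Fin n) N).image C).bddAbove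
  exact ⟨K, fun w hw => hQ w _ _ (hK ⟨w, hw, rfl⟩) (hC w)⟩

lemma P11_upper {P : ℝ} (hP : 0 < P) {T : ℝ} {u : ℝ → E n → ℝ}
    (hu : IsSolOn (Icc 0 T) univ u) (hp : ∀ t ∈ Icc 0 T, Per P (u t)) {M : ℝ}
    (h0 : ∀ x, u 0 x ≤ M) : ∀ t ∈ Icc 0 T, ∀ x, u t x ≤ M := by
  intro t ht x
  by_contra hlt
  push Not at hlt
  have ht0 : 0 < t := by
    rcases ht.1.eq_or_lt with h | h
    · rw [← h] at hlt; exact absurd (h0 x) (not_le.2 hlt)
    · exact h
  have hT : 0 ≤ T := ht.1.trans ht.2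
  set δ : ℝ := (u t x - M) / (2 * t) with hδ
  have hδ0 : 0 < δ := by
    rw [hδ]; exact div_pos (by linarith) (by linarith)
  have hδt : δ * t = (u t x - M) / 2 := by
    rw [hδ]; field_simp
  obtain ⟨x', hx', hxr⟩ := P11_reduce hP x
  have hK : IsCompact (Icc 0 T ×ˢ P11_cell n P) := isCompact_Icc.prod (P11_cell_compact P)
  have hc : ContinuousOn (fun p : ℝ × E n => u p.1 p.2 - δ * p.1) (Icc 0 T ×ˢ P11_cell n P) := by
    refine ContinuousOn.sub ((hu.cont []).mono (prod_mono subset_rfl (subset_univ _))) ?_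
    exact (continuous_const.mul continuous_fst).continuousOn
  obtain ⟨⟨s₀, y₀⟩, ⟨hs₀, hy₀⟩, hmax⟩ := hK.exists_isMaxOn ⟨(t, x'), ht, hx'⟩ hc
  have hmax' : ∀ s ∈ Icc 0 T, ∀ y, u s y - δ * s ≤ u s₀ y₀ - δ * s₀ := by
    intro s hs y
    obtain ⟨y', hy', hyr⟩ := P11_reduce hP y
    rw [← hyr _ (hp s hs)]
    exact hmax (show (s, y') ∈ Icc 0 T ×ˢ P11_cell n P from ⟨hs, hy'⟩)
  have hbig : M < u s₀ y₀ - δ * s₀ := by
    have h1 := hmax' t ht x
    linarith
  have hs₀0 : 0 < s₀ := by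
    rcases hs₀.1.eq_or_lt with h | h
    · exfalso
      simp only at h
      rw [← h] at hbig
      have := h0 y₀
      linarith
    · exact h
  have hj : LJet (gradient (u s₀) y₀) (Icc 0 T) s₀ y₀ (fun s y => u s y - δ * s)
      (gradient (u s₀) y₀ - 0) (0 - δ * 1) :=
    (LJet_u hu hs₀).sub (LJet.time (((hasDerivAt_id s₀).const_mul δ).hasDerivWithinAt))
  have hmx := LJet.max ⟨hs₀0, hs₀.2⟩ hj
    (Filter.Eventually.of_forall fun y => hmax' s₀ hs₀ y)
    (fun s hs => hmax' s ⟨hs.1, hs.2.trans hs₀.2⟩ y₀)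
  linarith [hmx.2]

theorem torus_sup_bound {P : ℝ} (hP : 0 < P) {T : ℝ} {u : ℝ → E n → ℝ}
    (hu : IsSolOn (Icc 0 T) univ u) (hp : ∀ t ∈ Icc 0 T, Per P (u t)) {M : ℝ}
    (h0 : ∀ x, |u 0 x| ≤ M) : ∀ t ∈ Icc 0 T, ∀ x, |u t x| ≤ M := by
  intro t ht x
  have h1 := P11_upper hP hu hp (M := M) (fun x => (le_abs_self _).trans (h0 x)) t ht x
  have h2 := P11_upper hP hu.neg (fun t ht i x => by simpa using hp t ht i x) (M := M)
    (fun x => (neg_le_abs _).trans (h0 x)) t ht x
  exact abs_le.2 ⟨by linarith, h1⟩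

/-- Gluing of solutions in time. -/
lemma P11_glue {a b : ℝ} (ha : 0 ≤ a) (hb : 0 ≤ b) {u v : ℝ → E n → ℝ}
    (hu : IsSolOn (Icc 0 a) univ u) (hv : IsSolOn (Icc 0 b) univ v) (h : v 0 = u a) :
    IsSolOn (Icc 0 (a + b)) univ (fun t => if t ≤ a then u t else v (t - a)) := by
  have e1 : ∀ t, t ≤ a → (if t ≤ a then u t else v (t - a)) = u t := fun t ht => if_pos ht
  have e2 : ∀ t, a ≤ t → (if t ≤ a then u t else v (t - a)) = v (t - a) := by
    intro t ht
    rcases ht.eq_or_lt with h1 | h1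
    · rw [← h1]; simp [h]
    · exact if_neg (not_le.2 h1)
  have hU : Icc (0 : ℝ) (a + b) = Icc 0 a ∪ Icc a (a + b) :=
    (Icc_union_Icc_eq_Icc ha (by linarith)).symm
  have hshift : ∀ t ∈ Icc a (a + b), t - a ∈ Icc 0 b := fun t ht =>
    ⟨by linarith [ht.1], by linarith [ht.2]⟩
  refine ⟨fun t ht => ?_, fun w => ?_, fun w t ht x _ => ?_⟩
  · rcases le_total t a with h1 | h1
    · rw [e1 t h1]; exact hu.smooth t ⟨ht.1, h1⟩
    · rw [e2 t h1]; exact hv.smooth (t - a) (hshift t ⟨h1, ht.2⟩)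
  · rw [hU, union_prod]
    refine ContinuousOn.union_of_isClosed ?_ ?_ (isClosed_Icc.prod isClosed_univ)
      (isClosed_Icc.prod isClosed_univ)
    · refine (hu.cont w).congr fun p hp => ?_
      simp only
      rw [e1 p.1 hp.1.2]
    · have h1 : Continuous (fun p : ℝ × E n => ((p.1 - a, p.2) : ℝ × E n)) := by fun_prop
      have h2 := (hv.cont w).comp h1.continuousOn
        (s := Icc a (a + b) ×ˢ univ) (fun p hp => ⟨hshift p.1 hp.1, trivial⟩)
      refine h2.congr fun p hp => ?_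
      simp only [Function.comp]
      rw [e2 p.1 hp.1.1]
  · rw [hU]
    refine HasDerivWithinAt.union ?_ ?_
    · rcases le_or_gt t a with h1 | h1
      · rw [e1 t h1]
        exact (hu.deriv w t ⟨ht.1, h1⟩ x trivial).congr (fun s hs => by rw [e1 s hs.2])
          (by rw [e1 t h1])
      · refine HasFDerivWithinAt.of_notMem_closure ?_
        rw [isClosed_Icc.closure_eq]
        exact fun h2 => absurd h2.2 (not_le.2 h1)
    · rcases le_or_gt a t with h1 | h1
      · rw [e2 t h1]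
        have h2 := hv.deriv w (t - a) (hshift t ⟨h1, ht.2⟩) x trivial
        have h3 : HasDerivWithinAt (fun s : ℝ => s - a) 1 (Icc a (a + b)) t :=
          ((hasDerivAt_id t).sub_const a).hasDerivWithinAt
        have h4 := h2.scomp t h3 (fun s hs => hshift s hs)
        rw [one_smul] at h4
        exact h4.congr (fun s hs => by simp only [Function.comp]; rw [e2 s hs.1])
          (by simp only [Function.comp]; rw [e2 t h1])
      · refine HasFDerivWithinAt.of_notMem_closure ?_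
        rw [isClosed_Icc.closure_eq]
        exact fun h2 => absurd h2.1 (not_le.2 h1)

lemma P11_gradSq_bdd {P : ℝ} (hP : 0 < P) {f : E n → ℝ} (hf : ContDiff ℝ ∞ f) (hp : Per P f) :
    ∃ M, ∀ x, gradSq f x ≤ M := by
  obtain ⟨C, hC⟩ := P11_unif (n := n) 1 (fun w C => ∀ x, |Dw w f x| ≤ C)
    (fun w a b hab h x => (h x).trans hab)
    (fun w => P11_bdd hP (contDiff_Dw hf w).continuous (hp.Dw w))
  refine ⟨∑ _i : Fin n, C ^ 2, fun x => Finset.sum_le_sum fun i _ => ?_⟩
  exact sq_le_sq.2 ((hC [i] (by simp) x).trans (le_abs_self C))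

/-- Global existence on the torus, from local existence (P6b). -/
theorem exists_torus_solution_of_local {P : ℝ} (hP : 0 < P)
    (local_ex : ∀ M : ℝ, ∃ τ : ℝ, 0 < τ ∧
      ∀ f : E n → ℝ, ContDiff ℝ ∞ f → Per P f →
        (∀ w : List (Fin n), w.length ≤ 2 * n + 10 → ∀ x, |Dw w f x| ≤ M) →
        ∃ u : ℝ → E n → ℝ, IsSolOn (Icc 0 τ) univ u ∧ u 0 = f ∧ ∀ t ∈ Icc 0 τ, Per P (u t))
    {f : E n → ℝ} (hf : ContDiff ℝ ∞ f) (hfp : Per P f) {T : ℝ} :
    ∃ u : ℝ → E n → ℝ, IsSolOn (Icc 0 T) univ u ∧ u 0 = f ∧ ∀ t ∈ Icc 0 T, Per P (u t) := by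
  -- the first time step
  obtain ⟨Ma, hMa⟩ := P11_unif (n := n) (2 * n + 10) (fun w C => ∀ x, |Dw w f x| ≤ C)
    (fun w a b hab h x => (h x).trans hab)
    (fun w => P11_bdd hP (contDiff_Dw hf w).continuous (hfp.Dw w))
  obtain ⟨τa, hτa, hloc⟩ := local_ex Ma
  obtain ⟨ua, hua, hua0, huap⟩ := hloc f hf hfp hMa
  -- a priori bounds
  obtain ⟨M1, hM1⟩ := P11_bdd hP hf.continuous hfp
  obtain ⟨M2, hM2⟩ := P11_gradSq_bdd hP hf hfp
  set M := max M1 M2 with hM
  obtain ⟨K, hK⟩ := P11_unif (n := n) (2 * n + 10) (fun w C =>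
      ∀ T' ≤ T, ∀ (u : ℝ → E n → ℝ) (x₀ : E n), IsSolOn (Icc 0 T') univ u →
      (∀ t ∈ Icc 0 T', ∀ x ∈ Metric.closedBall x₀ 1, |u t x| ≤ M) →
      (∀ x ∈ Metric.closedBall x₀ 1, gradSq (u 0) x ≤ M) →
      ∀ t ∈ Icc (τa / 2) T', |Dw w (u t) x₀| ≤ C)
    (fun w a b hab h T' hT' u x₀ h1 h2 h3 t ht => (h T' hT' u x₀ h1 h2 h3 t ht).trans hab)
    (fun w => interior_est (n := n) one_pos M T (by linarith : 0 < τa / 2) w)
  obtain ⟨τb, hτb, hlocb⟩ := local_ex K
  -- induction
  have key : ∀ N : ℕ, ∃ u : ℝ → E n → ℝ, IsSolOn (Icc 0 (min T (τa + N * τb))) univ u ∧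
      u 0 = f ∧ ∀ t ∈ Icc 0 (min T (τa + N * τb)), Per P (u t) := by
    intro N
    induction N with
    | zero =>
      have h1 : min T (τa + ((0 : ℕ) : ℝ) * τb) ≤ τa := by
        simp
      exact ⟨ua, hua.mono (Icc_subset_Icc_right h1) subset_rfl, hua0,
        fun t ht => huap t ⟨ht.1, ht.2.trans h1⟩⟩
    | succ N ih =>
      obtain ⟨u, hu, hu0, hup⟩ := ih
      rcases le_or_gt T (τa + N * τb) with h1 | h1
      · have h2 : min T (τa + ((N + 1 : ℕ) : ℝ) * τb) = min T (τa + N * τb) := by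
          rw [min_eq_left h1, min_eq_left]
          push_cast
          nlinarith
        rw [h2]
        exact ⟨u, hu, hu0, hup⟩
      · rw [min_eq_right h1.le] at hu hup
        set T' := τa + N * τb with hT'
        have hN : (0 : ℝ) ≤ N * τb := by positivity
        have hT'0 : 0 ≤ T' := by linarith
        have hmem : T' ∈ Icc 0 T' := ⟨hT'0, le_rfl⟩
        have hg : ∀ w : List (Fin n), w.length ≤ 2 * n + 10 → ∀ x, |Dw w (u T') x| ≤ K := by
          intro w hw x
          refine hK w hw T' h1.le u x hu (fun t ht y _ => ?_) (fun y _ => ?_) T'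
            ⟨by linarith, le_rfl⟩
          · exact torus_sup_bound hP hu hup (M := M)
              (fun z => by rw [hu0]; exact (hM1 z).trans (le_max_left _ _)) t ht y
          · rw [hu0]; exact (hM2 y).trans (le_max_right _ _)
        have hsm : ContDiff ℝ ∞ (u T') := contDiffOn_univ.1 (hu.smooth T' hmem)
        obtain ⟨v, hv, hv0, hvp⟩ := hlocb (u T') hsm (hup T' hmem) hg
        have hglue := P11_glue hT'0 hτb.le hu hv hv0
        have h3 : min T (τa + ((N + 1 : ℕ) : ℝ) * τb) ≤ T' + τb := by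
          refine (min_le_right _ _).trans (le_of_eq ?_)
          rw [hT']; push_cast; ring
        refine ⟨_, hglue.mono (Icc_subset_Icc_right h3) subset_rfl, ?_, fun t ht => ?_⟩
        · rw [if_pos hT'0, hu0]
        · split_ifs with h4
          · exact hup t ⟨ht.1, h4⟩
          · push Not at h4
            exact hvp (t - T') ⟨by linarith, by linarith [ht.2.trans h3]⟩
  obtain ⟨N, hN⟩ := exists_nat_ge (T / τb)
  obtain ⟨u, hu, hu0, hup⟩ := key N
  have h5 : min T (τa + N * τb) = T := by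
    rw [min_eq_left]
    rw [div_le_iff₀ hτb] at hN
    linarith
  rw [h5] at hu hup
  exact ⟨u, hu, hu0, hup⟩

end Pool.Agent.GR
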